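import Mathlib
import Pool.Agent.SAV.Gap

/-!
MP_530380_gt. Symplectomorphisms that are close to affine maps on every sphere are smoothly
isotopic to the identity.
-/

set_option autoImplicit false

open Set Filter Topology Metric MeasureTheory
open Pool.Agent.SAV

namespace Pool.Agent.Results.MP_530380_gt.FlatnessCriterion

/-- Put `β = (π / 2) * (2n choose n) / 4 ^ n`. Let `f` be a compactly supported symplectomorphism
of `R^{2n}` such that, for every centre `x` and every radius `r > 0`, there are a point `a`, a
linear map `Q` and a number `δ` with `|f (x + r u) - a - r Q u| ≤ δ r` and `δ < β |Q u|` for every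
unit vector `u`. Then `f` is smoothly isotopic to the identity with uniform compact support. -/
theorem result : ∀ (n : ℕ) (f g : V n → V n), CompactSymp n f g →
    (∀ x : V n, ∀ r > (0 : ℝ), ∃ (a : V n) (Q : V n →ₗ[ℝ] V n) (δ : ℝ),
      ∀ u : V n, nsq u = 1 → len (f (x + r • u) - a - r • Q u) ≤ δ * r ∧
        δ < bet n * len (Q u)) →
    SmoothlyIsotopic n f := by
  intro n f g h hflat
  refine isotopic_of_ball_averages h ?_
  intro hn
  obtain ⟨l, rfl⟩ : ∃ l, n = l + 1 := ⟨n - 1, by omega⟩
  intro x r hr v h0
  have h1top : (1 : WithTop ℕ∞) ≤ ((⊤ : ℕ∞) : WithTop ℕ∞) := by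
    exact_mod_cast (le_top : (1 : ℕ∞) ≤ ⊤)
  exact flat_ball_average f (h.1.of_le h1top) x r hr (hflat x r hr) v h0

end Pool.Agent.Results.MP_530380_gt.FlatnessCriterion
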