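import Mathlib
import Pool.Agent.SAV.Gap

/-!
MP_530380_gt. Symplectomorphisms with small Lipschitz constant are smoothly isotopic to the
identity.
-/

set_option autoImplicit false

open Set Filter Topology Metric MeasureTheory
open Pool.Agent.SAV

namespace Pool.Agent.Results.MP_530380_gt.LipschitzGap

/-- Put `β = (π / 2) * (2n choose n) / 4 ^ n`. A compactly supported symplectomorphism of `R^{2n}`
which is `L`-Lipschitz for the Euclidean metric, with `L ^ 4 * (1 - β) < 1 + β`, is smoothly
isotopic to the identity with uniform compact support. -/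
theorem result : ∀ (n : ℕ) (f g : V n → V n) (L : ℝ), CompactSymp n f g → 0 ≤ L →
    (∀ x v : V n, nsq (fderiv ℝ f x v) ≤ L ^ 2 * nsq v) →
    L ^ 4 * (1 - bet n) < 1 + bet n →
    SmoothlyIsotopic n f := by
  intro n f g L h hL hLip hgap
  refine isotopic_of_ball_averages h ?_
  intro hn
  obtain ⟨l, rfl⟩ : ∃ l, n = l + 1 := ⟨n - 1, by omega⟩
  intro x r hr v h0
  exact lipschitz_ball_average h L hL hLip hgap x r hr v h0

end Pool.Agent.Results.MP_530380_gt.LipschitzGap
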