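import Mathlib
import Pool.Agent.SAV.Defs

/-!
MP_530380_gt. Symplectomorphisms of small mean oscillation are smoothly isotopic to the identity.
-/

set_option autoImplicit false

open Set Filter Topology Metric MeasureTheory
open Pool.Agent.SAV

namespace Pool.Agent.Results.MP_530380_gt.OscillationCriterion

/-- Let `f` be a compactly supported symplectomorphism of `R^{2n}` and `μ` an atomless compactly
supported probability measure. If, over every translate and dilate of `μ` and for every `v ≠ 0`,
the complex linear part of the derivative of `f` has variance less than `|v|^2`, then `f` is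
smoothly isotopic to the identity with uniform compact support. -/
theorem result : ∀ (n : ℕ) (f g : V n → V n), CompactSymp n f g →
    ∀ μ : Measure (V n), IsProbabilityMeasure μ → (∀ x, μ {x} = 0) →
    (∃ S : Set (V n), IsCompact S ∧ μ Sᶜ = 0) →
    (∀ x : V n, ∀ r > (0 : ℝ), ∀ v : V n, v ≠ 0 →
      ∫ y, nsq (cpart f (x + r • y) v - ∫ z, cpart f (x + r • z) v ∂μ) ∂μ < nsq v) →
    SmoothlyIsotopic n f := by
  intro n f g h μ hμ hμ0 hS hosc
  obtain ⟨S, hS, hμS⟩ := hS
  obtain ⟨K, hK, hid⟩ := h.2.2.2.2.2
  have h1top : (1 : WithTop ℕ∞) ≤ ((⊤ : ℕ∞) : WithTop ℕ∞) := by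
    exact_mod_cast (le_top : (1 : ℕ∞) ≤ ⊤)
  refine isotopic_of_averages h μ hμ0 S hS hμS ?_
  intro x r hr v h0
  exact average_injective_of_osc μ f (h.1.of_le h1top) K hK hid h.2.2.2.2.1 x r v
    (hosc x r hr v) h0

end Pool.Agent.Results.MP_530380_gt.OscillationCriterion
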